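import Mathlib

/-!
# Transfer into an abelian Sylow 2-subgroup
-/

namespace ALoop

open Subgroup MulAction

theorem not_mem_commutator {M : Type*} [Group M] [Finite M] (G T : Subgroup M) (hTG : T ≤ G)
    (hT : IsPGroup 2 T) (hodd : ¬ 2 ∣ T.relIndex G) (hab : ∀ a ∈ T, ∀ b ∈ T, a * b = b * a)
    {z : M} (hz : z ∈ T) (hz2 : z * z = 1) (hz1 : z ≠ 1)
    (hcl : ∀ g ∈ G, g * z * g⁻¹ ∈ T → g * z * g⁻¹ = z) : z ∉ ⁅G, G⁆ := by
  classical
  let _ : CommGroup T :=
    { (inferInstance : Group T) with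
      mul_comm := fun a b => Subtype.ext (hab a a.2 b b.2) }
  let φ : T.subgroupOf G →* T := (Subgroup.subgroupOfEquivOfLe hTG).toMonoidHom
  have hφ : ∀ x : T.subgroupOf G, ((φ x : T) : M) = ((x : G) : M) := fun _ => rfl
  set V : G →* T := MonoidHom.transfer φ with hV
  set Z : G := ⟨z, hTG hz⟩ with hZ
  -- the kernel contains the commutators
  have hker : ∀ x ∈ ⁅G, G⁆, ∃ h : x ∈ G, V ⟨x, h⟩ = 1 := by
    intro x hx
    have hle : ⁅G, G⁆ ≤ V.ker.map G.subtype := by
      rw [Subgroup.commutator_le]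
      intro a ha b hb
      refine ⟨(⟨a, ha⟩ : G) * ⟨b, hb⟩ * (⟨a, ha⟩ : G)⁻¹ * (⟨b, hb⟩ : G)⁻¹, ?_, ?_⟩
      · show V _ = 1
        rw [map_mul, map_mul, map_mul, map_inv, map_inv, mul_comm (V ⟨a, ha⟩), mul_assoc (V ⟨b, hb⟩),
          mul_inv_cancel, mul_one, mul_inv_cancel]
      · simp [commutatorElement_def]
    obtain ⟨y, hy, rfl⟩ := hle hx
    exact ⟨y.2, hy⟩
  intro hmem
  obtain ⟨hzG, h1⟩ := hker z hmem
  -- the transfer of z
  have hfin : Fintype (Quotient (orbitRel (zpowers Z) (G ⧸ T.subgroupOf G))) :=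
    Fintype.ofFinite _
  have hZ2 : Z ^ 2 = 1 := by
    apply Subtype.ext
    simpa [hZ, pow_two] using hz2
  have hfac : ∀ q : Quotient (orbitRel (zpowers Z) (G ⧸ T.subgroupOf G)),
      φ ⟨q.out.out⁻¹ * Z ^ Function.minimalPeriod (Z • ·) q.out * q.out.out,
        QuotientGroup.out_conj_pow_minimalPeriod_mem (T.subgroupOf G) Z q.out⟩ =
      if Z • q.out = q.out then ⟨z, hz⟩ else 1 := by
    intro q
    have hmem := QuotientGroup.out_conj_pow_minimalPeriod_mem (T.subgroupOf G) Z q.out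
    rw [Subgroup.mem_subgroupOf] at hmem
    apply Subtype.ext
    rw [hφ]
    push_cast at hmem ⊢
    by_cases hq : Z • q.out = q.out
    · rw [if_pos hq]
      have h1 : Function.minimalPeriod (Z • ·) q.out = 1 :=
        Function.minimalPeriod_eq_one_iff_isFixedPt.2 hq
      rw [h1, pow_one] at hmem ⊢
      have := hcl ((q.out.out : G) : M)⁻¹ (G.inv_mem (q.out.out : G).2)
        (by rw [inv_inv]; exact hmem)
      rwa [inv_inv] at this
    · rw [if_neg hq]
      have hdvd : Function.minimalPeriod (Z • ·) q.out ∣ 2 := by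
        apply Function.IsPeriodicPt.minimalPeriod_dvd
        show (Z • ·)^[2] q.out = q.out
        rw [smul_iterate, hZ2]
        exact one_smul _ _
      have h2 : Function.minimalPeriod (Z • ·) q.out = 2 := by
        rcases (Nat.dvd_prime Nat.prime_two).1 hdvd with h | h
        · exact absurd (Function.minimalPeriod_eq_one_iff_isFixedPt.1 h) hq
        · exact h
      have hz22 : (Z : M) ^ 2 = 1 := by rw [pow_two]; exact hz2
      rw [h2, hz22]
      simp
  have h2 : V Z = ∏ q : Quotient (orbitRel (zpowers Z) (G ⧸ T.subgroupOf G)),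
      (if Z • q.out = q.out then (⟨z, hz⟩ : T) else 1) := by
    rw [hV, MonoidHom.transfer_eq_prod_quotient_orbitRel_zpowers_quot]
    exact Finset.prod_congr rfl fun q _ => hfac q
  rw [Finset.prod_ite, Finset.prod_const, Finset.prod_const_one, mul_one] at h2
  -- the number of fixed orbits is odd
  have hcard : (Finset.univ.filter fun q : Quotient (orbitRel (zpowers Z)
      (G ⧸ T.subgroupOf G)) => Z • q.out = q.out).card =
      Nat.card (fixedPoints (zpowers Z) (G ⧸ T.subgroupOf G)) := by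
    have hfix : ∀ x : G ⧸ T.subgroupOf G, Z • x = x →
        ∀ g : zpowers Z, g • x = x := by
      rintro x hx ⟨g, k, rfl⟩
      have : Z ∈ stabilizer G x := hx
      exact (stabilizer G x).zpow_mem this k
    rw [← Fintype.card_subtype, ← Nat.card_eq_fintype_card]
    refine Nat.card_congr ⟨fun q => ⟨q.1.out, hfix _ q.2⟩,
      fun x => ⟨Quotient.mk'' x.1, ?_⟩, ?_, ?_⟩
    · have h1 : (Quotient.mk'' x.1 : Quotient (orbitRel (zpowers Z)
          (G ⧸ T.subgroupOf G))).out = x.1 := by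
        have h2 := Quotient.exact (Quotient.out_eq (Quotient.mk'' x.1 : Quotient
          (orbitRel (zpowers Z) (G ⧸ T.subgroupOf G))))
        obtain ⟨g, hg⟩ := h2
        rw [← hg]
        exact x.2 g
      rw [h1]
      exact x.2 ⟨Z, mem_zpowers Z⟩
    · intro q
      apply Subtype.ext
      exact Quotient.out_eq _
    · intro x
      apply Subtype.ext
      have h2 := Quotient.exact (Quotient.out_eq (Quotient.mk'' x.1 : Quotient
          (orbitRel (zpowers Z) (G ⧸ T.subgroupOf G))))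
      obtain ⟨g, hg⟩ := h2
      show (Quotient.mk'' x.1 : Quotient (orbitRel (zpowers Z)
          (G ⧸ T.subgroupOf G))).out = x.1
      rw [← hg]
      exact x.2 g
  rw [hcard] at h2
  have hoddc : Odd (Nat.card (fixedPoints (zpowers Z) (G ⧸ T.subgroupOf G))) := by
    rw [← Nat.not_even_iff_odd, even_iff_two_dvd]
    intro hev
    have hpZ : IsPGroup 2 (zpowers Z) := by
      rw [IsPGroup.iff_orderOf]
      rintro ⟨g, k, rfl⟩
      obtain ⟨j, hj⟩ := (IsPGroup.iff_orderOf.1 hT) (⟨z, hz⟩ ^ k)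
      refine ⟨j, ?_⟩
      rw [← hj, ← Subgroup.orderOf_coe, ← Subgroup.orderOf_coe, ← Subgroup.orderOf_coe]
      simp [hZ]
    have hmod := hpZ.card_modEq_card_fixedPoints (G ⧸ T.subgroupOf G)
    apply hodd
    have h3 : Nat.card (G ⧸ T.subgroupOf G) = T.relIndex G := rfl
    rw [← h3]
    exact (hmod.dvd_iff dvd_rfl).2 hev
  obtain ⟨k, hk⟩ := hoddc
  have hzT2 : (⟨z, hz⟩ : T) ^ 2 = 1 := by
    apply Subtype.ext
    simpa [pow_two] using hz2
  rw [hk, pow_succ, pow_mul, hzT2, one_pow, one_mul] at h2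
  rw [h2] at h1
  exact hz1 (congrArg Subtype.val h1)

end ALoop
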