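import Pool.Agent.H4.IS.TD
import Pool.Agent.H4.FD.PsetB
import Pool.Agent.H71.IS.TransA

set_option autoImplicit false

/-!
# Steps (5), (6), (7) of InnerSylow
-/

namespace ALoop

open Equiv

open scoped commutatorElement

/-- a 2-element that normalises a Sylow 2-subgroup is in it -/
theorem IsSyl.mem_of_norm {M : Type*} [Group M] [Finite M] {K S : Subgroup M} (hS : IsSyl K S)
    {u : M} (hu : u ∈ K) (hc : ∀ s ∈ S, u * s * u⁻¹ ∈ S) {n : ℕ} (hn : u ^ 2 ^ n = 1) :
    u ∈ S := by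
  have hk : ∀ k : ℕ, ∀ s ∈ S, u ^ k * s * (u ^ k)⁻¹ ∈ S := by
    intro k
    induction k with
    | zero => intro s hs; simpa using hs
    | succ k ih =>
      intro s hs
      have h1 := hc _ (ih s hs)
      have h2 : u * (u ^ k * s * (u ^ k)⁻¹) * u⁻¹ = u ^ (k + 1) * s * (u ^ (k + 1))⁻¹ := by
        rw [pow_succ']; group
      rwa [h2] at h1
  have hi : u ^ (2 ^ n - 1) = u⁻¹ := by
    apply eq_inv_of_mul_eq_one_left
    rw [← pow_succ, Nat.sub_add_cancel Nat.one_le_two_pow, hn]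
  have hnorm : u ∈ Subgroup.normalizer (S : Set M) := by
    rw [Subgroup.mem_normalizer_iff]
    refine fun x => ⟨fun hx => hc x hx, fun hx => ?_⟩
    have h1 := hk (2 ^ n - 1) _ hx
    rw [hi] at h1
    simpa [mul_assoc] using h1
  have h1 : IsPGroup 2 (S ⊔ Subgroup.zpowers u : Subgroup M) :=
    IsPGroup.to_sup_of_normal_left' hS.2.1 (zpowers_isPGroup hn) ((Subgroup.zpowers_le).2 hnorm)
  obtain ⟨c, hcK, hc'⟩ := hS.conj_mem h1 1 (by
    intro t ht
    rw [inv_one, one_mul, mul_one]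
    exact (sup_le hS.1 ((Subgroup.zpowers_le).2 hu)) ht)
  have h2 : Nat.card (S ⊔ Subgroup.zpowers u : Subgroup M) ≤ Nat.card S := by
    refine Nat.card_le_card_of_injective
      (fun t => (⟨c * (1⁻¹ * t * 1) * c⁻¹, hc' t t.2⟩ : S)) ?_
    intro a b hab
    have h3 : c * (1⁻¹ * (a : M) * 1) * c⁻¹ = c * (1⁻¹ * (b : M) * 1) * c⁻¹ :=
      congrArg Subtype.val hab
    apply Subtype.ext
    simpa using h3
  have h3 : S = S ⊔ Subgroup.zpowers u := by
    apply Subgroup.eq_of_le_of_card_ge le_sup_left h2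
  rw [h3]
  exact (le_sup_right : Subgroup.zpowers u ≤ _) (Subgroup.mem_zpowers u)

/-- conjugation by an element that normalises `G` preserves `[G, G]` -/
theorem conj_mem_commutator {M : Type*} [Group M] {G : Subgroup M} {c : M}
    (hc : ∀ g ∈ G, c * g * c⁻¹ ∈ G) {n : M} (hn : n ∈ ⁅G, G⁆) : c * n * c⁻¹ ∈ ⁅G, G⁆ := by
  have hG : G.map (MulAut.conj c).toMonoidHom ≤ G := by
    rintro _ ⟨g, hg, rfl⟩
    exact hc g hg
  have h1 : (⁅G, G⁆ : Subgroup M).map (MulAut.conj c).toMonoidHom ≤ ⁅G, G⁆ := by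
    rw [Subgroup.map_commutator]
    exact Subgroup.commutator_mono hG hG
  exact h1 ⟨n, hn, rfl⟩

variable {Q : Type*} {G : Subgroup (Perm Q)} {L : Q → Perm Q} {J : Perm Q} {e : Q}
  {S T : Subgroup (Perm Q)} {x : Q}

namespace TD

theorem zZ (h : AL G L J e) (d : TD G L J e S T x) : D L J x * J ∈ Z L J := h.zx_mem d.Jx d.xe

theorem ze (h : AL G L J e) (d : TD G L J e S T x) : (D L J x * J) e = e := h.zx_e d.Jx d.xe

theorem zx (h : AL G L J e) (d : TD G L J e S T x) : (D L J x * J) x = x := h.zx_x d.Jx d.xe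

theorem zS [Finite Q] (h : AL G L J e) (d : TD G L J e S T x) : D L J x * J ∈ S := by
  have hz := d.zZ h
  refine d.hS.mem_of_comm (mem_Inn.2 ⟨h.Z_mem hz, d.ze h⟩) ?_ (n := 1)
    (by rw [pow_one, pow_two, h.Z_sq hz])
  intro s hs
  have hse := mem_Inn.1 (d.hS.1 hs)
  have h1 := h.D_conj hse.1 x
  rw [d.Sx s hs] at h1
  have h2 := h.comJ s hse.1 hse.2
  calc s * (D L J x * J) = (s * D L J x * s⁻¹) * (s * J) := by group
    _ = D L J x * (J * s) := by rw [h1, h2]
    _ = D L J x * J * s := by group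

/-- `L x ^ 2` commutes with `C_G(z)` -/
theorem cen2 (h : AL G L J e) (d : TD G L J e S T x) {g : Perm Q} (hg : g ∈ G)
    (hgz : g * (D L J x * J) = (D L J x * J) * g) : g * (L x * L x) = (L x * L x) * g := by
  have hzG := h.Z_mem (d.zZ h)
  have hze := d.ze h
  set z := D L J x * J with hz
  set a := g e with ha
  have haz : z a = a := by
    have h1 : z (g e) = (g * z) e := by rw [hgz]; rfl
    rw [ha, h1, Perm.mul_apply, hze]
  obtain ⟨hk, hke⟩ := h.fix_part hg
  rw [← ha] at hk hke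
  have hLaz : z * L a = L a * z := h.comL hzG hze haz
  have hkz : ((L a)⁻¹ * g) * z = z * ((L a)⁻¹ * g) := by
    calc (L a)⁻¹ * g * z = (L a)⁻¹ * (g * z) := by group
      _ = (L a)⁻¹ * (z * g) := by rw [hgz]
      _ = (L a)⁻¹ * (z * L a) * ((L a)⁻¹ * g) := by group
      _ = (L a)⁻¹ * (L a * z) * ((L a)⁻¹ * g) := by rw [hLaz]
      _ = z * ((L a)⁻¹ * g) := by group
  have hkJ := h.comJ _ hk hke
  have hkx : ((L a)⁻¹ * g) x = x := by
    rw [← h.D_cent hk]
    have hD : D L J x = z * J := by rw [hz, mul_assoc, h.JJ1, mul_one]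
    rw [hD, ← mul_assoc, hkz, mul_assoc, hkJ, ← mul_assoc]
  have hkL := h.comL hk hke hkx
  have h2G : L x * L x ∈ G := G.mul_mem (h.memL x) (h.memL x)
  have h2e : (L x * L x) e = e := by rw [Perm.mul_apply, h.Le, h.LxLx d.Jx]
  have h2a : (L x * L x) a = a := by
    have := (h.pow_kp d.Jx d.xe 1 haz).1
    rwa [mul_one, pow_two] at this
  have h2L := h.comL h2G h2e h2a
  calc g * (L x * L x) = L a * (((L a)⁻¹ * g) * L x) * L x := by group
    _ = L a * (L x * ((L a)⁻¹ * g)) * L x := by rw [hkL]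
    _ = L a * L x * (((L a)⁻¹ * g) * L x) := by group
    _ = L a * L x * (L x * ((L a)⁻¹ * g)) := by rw [hkL]
    _ = (L a * (L x * L x)) * ((L a)⁻¹ * g) := by group
    _ = ((L x * L x) * L a) * ((L a)⁻¹ * g) := by rw [← h2L]
    _ = (L x * L x) * g := by group

/-- the commutators with `L x` -/
theorem comm_mem [Finite Q] (h : AL G L J e) (d : TD G L J e S T x) {m : Perm Q} (hm : m ∈ T) :
    ∃ u ∈ S, L x * u = m⁻¹ * L x * m ∧ u * u = 1 ∧ u * L x = L x * u := by
  have hzZ := d.zZ h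
  have hze := d.ze h
  have hzx := d.zx h
  have hzT := d.ST (d.zS h)
  have hmG : m ∈ G := d.hT.1 hm
  have hmz := d.hab m hm _ hzT
  set z := D L J x * J with hz
  have hSx : ∀ s ∈ S, s * L x = L x * s := fun s hs =>
    h.comL (mem_Inn.1 (d.hS.1 hs)).1 (mem_Inn.1 (d.hS.1 hs)).2 (d.Sx s hs)
  set u := (L x)⁻¹ * m⁻¹ * L x * m with hu
  have huG : u ∈ G := G.mul_mem (G.mul_mem (G.mul_mem (G.inv_mem (h.memL x)) (G.inv_mem hmG))
    (h.memL x)) hmG
  have hufix : ∀ q, z q = q → u q = q := by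
    intro q hq
    have h1 := h.kp_com hzZ hq hmG hmz
    have h2 := h.Lx_kp d.Jx d.xe h1.1
    have h3 := h.Lx_kp d.Jx d.xe hq
    show (L x)⁻¹ (m⁻¹ (L x (m q))) = q
    rw [h2, h1.2, inv_apply', Perm.inv_eq_iff_eq, h3]
  have hue : u e = e := hufix e hze
  have hux : u x = x := hufix x hzx
  have huL : u * L x = L x * u := h.comL huG hue hux
  have hm2 := d.cen2 h hmG hmz
  have h1 : L x * u = m⁻¹ * L x * m := by rw [hu]; group
  have huu : u * u = 1 := by
    have h2 : (L x * u) * (L x * u) = L x * L x := by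
      rw [h1]
      calc m⁻¹ * L x * m * (m⁻¹ * L x * m) = m⁻¹ * ((L x * L x) * m) := by group
        _ = m⁻¹ * (m * (L x * L x)) := by rw [hm2]
        _ = L x * L x := by group
    have h3 : (L x * u) * (L x * u) = (L x * L x) * (u * u) := by
      calc (L x * u) * (L x * u) = L x * (u * L x) * u := by group
        _ = L x * (L x * u) * u := by rw [huL]
        _ = _ := by group
    rw [h3] at h2
    exact mul_eq_left.1 h2
  refine ⟨u, ?_, h1, huu, huL⟩
  refine d.hS.mem_of_comm (mem_Inn.2 ⟨huG, hue⟩) ?_ (n := 1) (by rw [pow_one, pow_two, huu])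
  intro s hs
  have c1 : Commute s (L x) := hSx s hs
  have c2 : Commute s m := d.hab s (d.ST hs) m hm
  exact ((c1.inv_right.mul_right c2.inv_right).mul_right c1).mul_right c2

/-- (5) -/
theorem comLx [Finite Q] (h : AL G L J e) (d : TD G L J e S T x) :
    ∀ m ∈ T, m * L x = L x * m := by
  obtain ⟨n, hn, k, hk⟩ := exists_odd_pow (L x)
  set t := L x ^ n with ht
  have htG : t ∈ G := G.pow_mem (h.memL x) n
  -- conjugates of `t`
  have hconj : ∀ m ∈ T, ∃ u ∈ S, L x * u = m⁻¹ * L x * m ∧ m⁻¹ * t * m = t * u := by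
    intro m hm
    obtain ⟨u, huS, h1, huu, huL⟩ := d.comm_mem h hm
    refine ⟨u, huS, h1, ?_⟩
    have h2 : m⁻¹ * t * m = (m⁻¹ * L x * m) ^ n := by
      have := conj_pow (i := n) (a := m⁻¹) (b := L x)
      rw [inv_inv] at this
      exact this.symm
    have h3 : Commute (L x) u := huL.symm
    rw [h2, ← h1, h3.mul_pow, ht]
    congr 1
    obtain ⟨j, rfl⟩ := hn
    rw [pow_succ, pow_mul, pow_two, huu, one_pow, one_mul]
  have htT : t ∈ T := by
    have h1 : t⁻¹ ∈ T := by
      refine d.hT.mem_of_norm (G.inv_mem htG) ?_ (n := k) (by rw [inv_pow, hk, inv_one])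
      intro s hs
      obtain ⟨u, huS, -, h2⟩ := hconj s⁻¹ (T.inv_mem hs)
      rw [inv_inv] at h2
      have h3 : t⁻¹ * s * t⁻¹⁻¹ = u * s := by
        calc t⁻¹ * s * t⁻¹⁻¹ = t⁻¹ * (s * t * s⁻¹) * s := by group
          _ = t⁻¹ * (t * u) * s := by rw [h2]
          _ = u * s := by group
      rw [h3]
      exact T.mul_mem (d.ST huS) hs
    have h2 := T.inv_mem h1
    rwa [inv_inv] at h2
  intro m hm
  obtain ⟨u, huS, h1, h2⟩ := hconj m hm
  have h3 : m⁻¹ * t * m = t := by
    rw [mul_assoc, d.hab t htT m hm]; group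
  rw [h3] at h2
  have h4 : u = 1 := mul_eq_left.1 h2.symm
  rw [h4, mul_one] at h1
  calc m * L x = m * (m⁻¹ * L x * m) := by rw [← h1]
    _ = L x * m := by group

/-- (6) -/
theorem ZT [Finite Q] (h : AL G L J e) (d : TD G L J e S T x) :
    ∀ y ∈ Z L J, y ∈ T → y = D L J x * J := by
  intro y hy hyT
  have hzZ := d.zZ h
  have hyz := d.hab y hyT _ (d.ST (d.zS h))
  have hyL := d.comLx h y hyT
  have hyG := h.Z_mem hy
  have hR := h.zt_eq (x := x) d.Jx
  set z := D L J x * J with hz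
  obtain ⟨q, hq⟩ : ∃ q, y q = q := by
    have hyG' := hyG
    obtain ⟨p, r, hne, hc, rfl⟩ := hy
    refine ⟨p, ?_⟩
    rw [← h.D_cent hyG']
    calc D L J p * D L J r * D L J p = D L J p * (D L J r * D L J p) := by group
      _ = D L J p * (D L J p * D L J r) := by rw [hc]
  -- an element `r` commuting with `y` and moving `q` to a commuting point
  have key : ∀ r : Perm Q, y * r = r * y → (r q ≠ q ∧
      D L J (r q) * D L J q = D L J q * D L J (r q)) → y = D L J (r q) * D L J q := by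
    intro r hr hadj
    have hwZ : D L J (r q) * D L J q ∈ Z L J := ⟨r q, q, hadj.1, hadj.2, rfl⟩
    have hyr : y (r q) = r q := by rw [← Perm.mul_apply, hr, Perm.mul_apply, hq]
    have c1 := (h.D_cent hyG (r q)).2 hyr
    have c2 := (h.D_cent hyG q).2 hq
    have hwq : (D L J (r q) * D L J q) q = q := by
      rw [← h.D_cent (h.Z_mem hwZ)]
      calc D L J (r q) * D L J q * D L J q = (D L J (r q) * D L J q) * D L J q := rfl
        _ = D L J q * D L J (r q) * D L J q := by rw [hadj.2]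
        _ = _ := by group
    refine d.hr y hy _ hwZ ?_ q hq hwq
    rw [← mul_assoc, c1, mul_assoc, c2, ← mul_assoc]
  have k1 := key (L x) hyL (h.adjL d.Jx d.xe q)
  have hyR : y * (J * L x * J) = (J * L x * J) * y := by
    rw [hR, ← mul_assoc, hyz, mul_assoc, hyL, ← mul_assoc]
  have k2 := key (J * L x * J) hyR (h.adjR d.Jx d.xe q)
  have k3 : D L J (L x q) = D L J ((J * L x * J) q) :=
    mul_right_cancel (k1.symm.trans k2)
  have k4 : L x q = z (L x q) := by
    have := h.D_inj k3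
    rwa [hR, Perm.mul_apply] at this
  have hyLq : y (L x q) = L x q := by rw [← Perm.mul_apply, hyL, Perm.mul_apply, hq]
  exact d.hr y hy z hzZ hyz (L x q) hyLq k4.symm

/-- (7) -/
theorem false [Finite Q] (h : AL G L J e) (d : TD G L J e S T x) : False := by
  have hzZ := d.zZ h
  have hze := d.ze h
  have hzT := d.ST (d.zS h)
  have hnot := not_mem_commutator G T d.hT.1 d.hT.2.1 d.hT.2.2 d.hab hzT (h.Z_sq hzZ) (h.Z_ne hzZ)
    (fun g hg hgT => d.ZT h _ (h.Z_conj hzZ hg) hgT)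
  apply hnot
  have hNm : Nm G ⁅G, G⁆ := fun g hg n hn =>
    conj_mem_commutator (fun a ha => G.mul_mem (G.mul_mem hg ha) (G.inv_mem hg)) hn
  have hne : (⁅G, G⁆ : Subgroup (Perm Q)) ≠ ⊥ := by
    intro h0
    apply h.Z_ne hzZ
    ext q
    have h1 : ⁅D L J x * J, L q⁆ ∈ (⁅G, G⁆ : Subgroup (Perm Q)) :=
      Subgroup.commutator_mem_commutator (h.Z_mem hzZ) (h.memL q)
    rw [h0, Subgroup.mem_bot, commutatorElement_eq_one_iff_mul_comm] at h1
    have h2 : (D L J x * J) (L q e) = L q ((D L J x * J) e) :=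
      congrArg (fun p : Perm Q => p e) h1
    rw [hze, h.Le] at h2
    rw [h2, Perm.one_apply]
  obtain ⟨g, hg, hge⟩ := h.trans hNm hne e x
  have hgG : g ∈ G := by
    have : (⁅G, G⁆ : Subgroup (Perm Q)) ≤ G := by
      rw [Subgroup.commutator_le]
      intro a ha b hb
      exact G.mul_mem (G.mul_mem (G.mul_mem ha hb) (G.inv_mem ha)) (G.inv_mem hb)
    exact this hg
  have h1 := h.D_conj hgG e
  rw [hge, h.D_e] at h1
  have h2 : D L J x * J = g * (J * g⁻¹ * J⁻¹) := by
    rw [← h1, h.Jinv]; group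
  rw [h2]
  refine Subgroup.mul_mem _ hg (conj_mem_commutator ?_ (Subgroup.inv_mem _ hg))
  intro a ha
  rw [h.Jinv]
  exact h.JG a ha

end TD

end ALoop
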